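import Pool.Agent.TH522.DG.Local
import Pool.Agent.TH843.LR.Form

/-!
# Local reductions from gap 3-SAT to 2-to-1 games with perfect completeness must be large

The definitions used in the statement are `Represents` in `Pool/Agent/TH522/DG/Local.lean`, `Reads`,
`SatOn` in `Pool/Agent/TH700/UG/Defs.lean`, and `Clause`, `Satisfies`, `falsified` in
`Pool/Agent/W888/GX/Mix.lean`.

All known reductions from gap 3-SAT to Label Cover and its relatives are local: for every assignment
there are honest labelings, each label of which depends on few of the variables (those of a few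
clauses, in some encoding), and that the honest labelings of a satisfying assignment satisfy an edge
is seen from a few of the clauses. `Represents F D u v π` says this for the formula `F` and the game
with the edges `(u e, v e)` and projections `π e`.

The theorem: for some formulas `F` in `n` variables with `O(n)` clauses, at most a fraction
`7 / 8 + η` of which can be satisfied, every `t`-to-1 game which represents `F` with locality `D` and
perfect completeness, and in which no labeling satisfies a fraction `e ^ (-l) / 2 ^ 19` of the edges,
has more than `(c n / D) ^ (1 / (9 x log (2 / x)))` vertices on the side of the large alphabet,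
`x = log (256 t) / l`. So for 2-to-1 games a local reduction which proves hardness for value one
against value `δ` has size at least `n ^ (c y / log y)`, `y = log (1 / δ)`, and in a reduction of
polynomial size some label must depend on `n ^ (1 - O(log y / y))` variables. This is unconditional.

Proof: for random formulas there is a pseudo-expectation of linear degree which satisfies all
clauses. Composed with the honest labelings it is a solution of level `n / D`, up to a constant, of
the mixed hierarchy, of value one. The rounding theorem for projection games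
(`Pool/Agent/TH522/DG/Main.lean`) gives a labeling of value `e ^ (-l) / 2 ^ 19`. If there are fewer
than `e ^ l` vertices on the side of the large alphabet, then all of them can be fixed at once, and
all edges can be satisfied.
-/

namespace Pool.Agent.Results.MP_ec946a_lc.LocalReductions

open Finset Pool.Agent.W888.GX Pool.Agent.TH522.DG

/-- For every `η > 0` there are `M` and `c > 0` such that for all large `n` there is a formula `F`
with at least `n` and at most `M n` clauses, with three literals each, over `n` variables, every
assignment of which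
falsifies at least a fraction `1 / 8 - η` of the clauses, and with the following property. Let
`t, D ≥ 1`, `log (256 t) ≤ l`, `e ^ l ≤ c n / D` and `x = log (256 t) / l`. If a game with edges
`(u e, v e)`, labels `A` for `U` and `B` for `V`, and projections `π e : A → B` all of whose fibres
have at most `t` elements, represents `F` with locality `D` and perfect completeness, and if every
labeling satisfies less than a fraction `e ^ (-l) / 2 ^ 19` of the edges, then
`|U| > (c n / D) ^ (1 / (9 x log (2 / x)))`. -/
theorem result : ∀ η : ℝ, 0 < η →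
    ∃ M : ℕ, 1 ≤ M ∧ ∃ c : ℝ, 0 < c ∧ ∃ n₀ : ℕ, ∀ n : ℕ, n₀ ≤ n →
      ∃ (I : Type) (_ : Fintype I) (F : I → Clause 3 n),
        n ≤ Fintype.card I ∧ Fintype.card I ≤ M * n ∧
        (∀ z, (1 / 8 - η) * (Fintype.card I : ℝ) ≤ (falsified F z : ℝ)) ∧
        ∀ (t D : ℕ) (l x : ℝ) (U V E A B : Type) [Fintype U] [Fintype V] [Fintype E] [Fintype A]
          [Fintype B] [DecidableEq B] (u : E → U) (v : E → V) (π : E → A → B), 1 ≤ t → 1 ≤ D →
          (∀ e b, (univ.filter fun a => π e a = b).card ≤ t) →
          Real.log (256 * t) ≤ l → Real.exp l ≤ c * n / D → x = Real.log (256 * t) / l →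
          Represents F D u v π →
          (∀ (M : U → A) (N : V → B), ((univ.filter fun e => π e (M (u e)) = N (v e)).card : ℝ) <
            Real.exp (-l) / 2 ^ 19 * Fintype.card E) →
          (c * n / D) ^ (1 / (9 * (x * Real.log (2 / x)))) < Fintype.card U := by
  intro η hη
  obtain ⟨M, hM, c0, hc0, n0, hn0⟩ := Pool.Agent.TH843.LR.exists_formula_card η hη
  refine ⟨M, hM, c0 / 8, by positivity, n0, fun n hn => ?_⟩
  obtain ⟨I, hI, F, D0, L, hcard0, hcard, hfar, hD0, hL, hF⟩ := hn0 n hn
  refine ⟨I, hI, F, hcard0, hcard, hfar, ?_⟩
  intro t D l x U V E A B _ _ _ _ _ _ u v π ht hD hfib hl hel hx hR hno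
  by_contra hcon
  push Not at hcon
  have ht1 : (1 : ℝ) ≤ t := by exact_mod_cast ht
  have hDr : (0 : ℝ) < D := by exact_mod_cast hD
  have hΛ : 0 < Real.log (256 * t) := Real.log_pos (by linarith)
  have hl0 : 0 < l := by linarith
  have hx0 : 0 < x := by rw [hx]; positivity
  have hx1 : x ≤ 1 := by rw [hx, div_le_one hl0]; exact hl
  have hlog2 : Real.log 2 ≤ Real.log (2 / x) := by
    refine Real.log_le_log (by norm_num) ?_
    rw [le_div_iff₀ hx0]
    linarith
  have hl2 := Real.log_two_gt_d9
  obtain ⟨θ, hθ⟩ : ∃ θ : ℝ, θ = 9 * (x * Real.log (2 / x)) := ⟨_, rfl⟩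
  have hθ0 : 0 < θ := by rw [hθ]; have : 0 < Real.log (2 / x) := by linarith
                         positivity
  rw [← hθ, one_div] at hcon
  have hel1 : (256 : ℝ) ≤ Real.exp l := by
    have h1 : (256 : ℝ) * t ≤ Real.exp l := by
      rw [← Real.log_le_iff_le_exp (by positivity)]
      exact hl
    linarith
  have hb0 : (256 : ℝ) ≤ c0 / 8 * n / D := hel1.trans hel
  have hU : (Fintype.card U : ℝ) ^ θ ≤ c0 / 8 * n / D := by
    calc (Fintype.card U : ℝ) ^ θ ≤ ((c0 / 8 * n / D) ^ θ⁻¹) ^ θ :=
          Real.rpow_le_rpow (Nat.cast_nonneg _) hcon hθ0.le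
      _ = _ := Real.rpow_inv_rpow (by linarith) hθ0.ne'
  have hall : ∀ (M : U → A) (N : V → B), (∀ e, π e (M (u e)) = N (v e)) → False := by
    intro M' N' h
    have h1 := hno M' N'
    have h2 : (univ.filter fun e => π e (M' (u e)) = N' (v e)) = univ := by
      ext e; simp [h e]
    rw [h2, card_univ] at h1
    have h3 : Real.exp (-l) ≤ 1 := Real.exp_le_one_iff.2 (by linarith)
    have h4 : (0 : ℝ) ≤ Fintype.card E := Nat.cast_nonneg _
    have h5 : Real.exp (-l) / 2 ^ 19 ≤ 1 := by
      rw [div_le_one (by norm_num)]
      linarith
    have := mul_le_mul_of_nonneg_right h5 h4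
    linarith
  rcases lt_or_ge (Fintype.card U : ℝ) (Real.exp l) with hsmall | hlarge
  · -- few vertices
    have h1 : (Fintype.card U + 2) * D ≤ D0 := by
      have h2 : (((Fintype.card U + 2) * D : ℕ) : ℝ) ≤ D0 := by
        push_cast
        have h3 : (Fintype.card U : ℝ) + 2 ≤ 2 * (c0 / 8 * n / D) := by linarith
        calc ((Fintype.card U : ℝ) + 2) * D ≤ 2 * (c0 / 8 * n / D) * D :=
              mul_le_mul_of_nonneg_right h3 hDr.le
          _ = c0 * n / 4 := by field_simp; ring
          _ ≤ c0 * n := by
              have : 0 ≤ c0 * n := by positivity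
              linarith
          _ ≤ D0 := hD0
      exact_mod_cast h2
    obtain ⟨M', N', h⟩ := few_vertices hL F hF u v π hR h1
    exact hall M' N' h
  · -- many vertices
    have hU0 : (0 : ℝ) < Fintype.card U := lt_of_lt_of_le (Real.exp_pos _) hlarge
    have hln : l ≤ Real.log (Fintype.card U) := by
      rw [Real.le_log_iff_exp_le hU0]
      exact hlarge
    obtain ⟨k, hk⟩ : ∃ k : ℕ, k = ⌈c0 / 8 * n / D⌉₊ := ⟨_, rfl⟩
    have hk1 : c0 / 8 * n / D ≤ k := by rw [hk]; exact Nat.le_ceil _
    have hk2 : (k : ℝ) < c0 / 8 * n / D + 1 := by
      rw [hk]; exact Nat.ceil_lt_add_one (by linarith)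
    have hkD : (k + 2) * D ≤ D0 := by
      have h2 : (((k + 2) * D : ℕ) : ℝ) ≤ D0 := by
        push_cast
        have h3 : (k : ℝ) + 2 ≤ 2 * (c0 / 8 * n / D) := by linarith
        calc ((k : ℝ) + 2) * D ≤ 2 * (c0 / 8 * n / D) * D :=
              mul_le_mul_of_nonneg_right h3 hDr.le
          _ = c0 * n / 4 := by field_simp; ring
          _ ≤ c0 * n := by
              have : 0 ≤ c0 * n := by positivity
              linarith
          _ ≤ D0 := hD0
      exact_mod_cast h2
    obtain ⟨encU, encV, T, hU', hV', hT⟩ := hR
    have hmix := mixed_comp hL encU encV hU' hV' hkD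
    have hval : (1 : ℝ) * (Fintype.card E : ℝ) ≤ ∑ e,
        (L.comp (LinearMap.funLeft ℝ ℝ fun z => (encU z, encV z))) (satE v u π e) := by
      have h1 : ∀ e, (L.comp (LinearMap.funLeft ℝ ℝ fun z => (encU z, encV z)))
          (satE v u π e) = 1 := by
        intro e
        obtain ⟨S, hS, hRS⟩ := hU' (u e)
        obtain ⟨S', hS', hRS'⟩ := hV' (v e)
        have hc1 : (S ∪ S' ∪ T e).card ≤ D0 := by
          refine (card_union_le _ _).trans ?_
          have h1 := card_union_le S S'
          have h4 := (hT e).1
          have h5 : 1 ≤ k := by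
            have : (1 : ℝ) ≤ k := by linarith
            exact_mod_cast this
          nlinarith
        have hz := edge_zero hL F hF (fun z => encU z (u e)) (fun z => encV z (v e)) (π e) S S'
          (T e) hRS hRS' (hT e).2 hc1
        have h2 : (L.comp (LinearMap.funLeft ℝ ℝ fun z => (encU z, encV z))) (satE v u π e) =
            L (fun z => if π e (encU z (u e)) = encV z (v e) then 1 else 0) := rfl
        have h3 : (fun z => if π e (encU z (u e)) = encV z (v e) then (1 : ℝ) else 0) =
            (fun _ => (1 : ℝ)) - fun z => if π e (encU z (u e)) = encV z (v e) then 0 else 1 := by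
          funext z
          rw [Pi.sub_apply]
          split_ifs <;> norm_num
        rw [h2, h3, map_sub, hz, hL.1, sub_zero]
      rw [sum_congr rfl fun e _ => h1 e]
      simp
    obtain ⟨M', N', h⟩ := core v u π t hfib 1 l x one_pos le_rfl
      (by rw [hx]; congr 2; ring) hl0 (by rw [one_pow, div_one]; exact hl) hln k
      (by rw [← hθ]; exact hU.trans hk1) _ hmix hval
    have h1 := hno M' N'
    rw [one_pow, one_mul] at h
    linarith

end Pool.Agent.Results.MP_ec946a_lc.LocalReductions
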