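import Pool.Agent.TH700.PA.GameTight

/-!
# Satisfiable 2-to-1 games are hard for read-once tensor networks, even with cancellations

A tree tensor network `Net K V A W` (`Pool/Agent/TH700/PA/Defs.lean`) has leaves that read one
symbol of the alphabet `A` each (with a vector in `K ^ W` for each symbol); an inner node combines
the vectors of its two children by an arbitrary bilinear map. It accepts the input `x` if a linear
form of the vector of the root is not zero. The field `K` and the weights are arbitrary, so there
may be cancellations. The tree is arbitrary; if every right child is a leaf then this is a matrix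
product (a weighted ordered read-once branching program, for any order of the edges). The bond
dimension is `card W`.

The inputs are 2-to-1 games with alphabet size `q` on `n + n` vertices whose edges are all pairs;
a leaf reads the constraint map of one edge. There is a constant `Γ` such that for all `g ≥ 1`,
`q ≥ Γ g ^ 8` and `n ≥ Γ g ^ 4` networks with any number of nodes, which read every edge at most
once, accept all games of value `1` and reject all games of value at most `1 / g`, have bond
dimension at least `q ^ (n / (Γ g ^ 2))`. This holds up to the factor `2 ^ μ` also for random networks
which never accept a game of value at most `1 / g` and accept every game of value `1` with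
probability at least `2 ^ (- μ)` (the deterministic case is `R = Unit`, `μ = 0`).

Conversely the number of labelings which satisfy all edges is computed by a linear network over `ℚ`
with `2 n ^ 2 - 1` nodes and bond dimension `q ^ (2 n)` which reads every edge once.

Proof: The nodes of the tree give a partition of the edges into `t = 2048 g ^ 2 + 1` parts, each of
them read between at most three nodes, such that no part contains more than `2 y ^ 2` edges,
`y = n / (16 g)`. Every part has rank at most the cube of the bond dimension. Take a random labeling
for each part and random constraint maps on its edges which it satisfies. If a labeling satisfies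
more than `n ^ 2 / g` edges of the mixture then it agrees with the labelings of the parts in at
least `4 n` pairs (part, vertex), or it satisfies more than `n ^ 2 / (2 g)` edges whose left label is
another one; both have probability less than `q ^ (- 3 n) 2 ^ (- n) / 2`. On the other hand, by the
replacement lemma (choose disjoint bases for the parts, and replace the restrictions of a further
game to the parts one after the other by members of these bases) among any `t * rank + 1` accepted
games of value `1` some mixture of different ones is accepted. Count all families of that many
games.
-/

set_option autoImplicit false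

namespace Pool.Agent.Results.MP_ec946a_lc.TensorNetworks

open Pool.Agent.TH700.PA

theorem result :
    (∃ Γ : ℕ, ∀ g q n : ℕ, 1 ≤ g → Γ * g ^ 8 ≤ q → Γ * g ^ 4 ≤ n →
      ∀ (μ : ℕ) (R : Type) [Fintype R] [Nonempty R] (K W : R → Type) [∀ ρ, Field (K ρ)]
        [∀ ρ, Fintype (W ρ)] (T : ∀ ρ, Net (K ρ) (Fin n × Fin n) (TwoToOne q) (W ρ))
        (a : ∀ ρ, W ρ → K ρ),
        (∀ ρ e, (T ρ).reads e ≤ 1) →
        (∀ ρ x, ValueLe g x → (T ρ).value (a ρ) x = 0) →
        (∀ x, ValueOne x →
          Nat.card R ≤ 2 ^ μ * Nat.card {ρ // (T ρ).value (a ρ) x ≠ 0}) →
        ∃ ρ, q ^ n ≤ (2 ^ μ * Fintype.card (W ρ)) ^ (Γ * g ^ 2)) ∧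
    (∀ q n : ℕ, 1 ≤ n →
      ∃ (T : Net ℚ (Fin n × Fin n) (TwoToOne q) (Fin n ⊕ Fin n → Fin q))
        (a : (Fin n ⊕ Fin n → Fin q) → ℚ),
        T.Linear ∧ (∀ e, T.reads e = 1) ∧ T.size = 2 * (n * n) - 1 ∧
          ∀ x, T.value a x ≠ 0 ↔ ValueOne x) :=
  ⟨main_gameq, fun q _ hn => upper_game q hn⟩

end Pool.Agent.Results.MP_ec946a_lc.TensorNetworks
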